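import Pool.Agent.N173.BG.Stm

/-! # Project MSB, SUM and CARD (helper547) -/

set_option autoImplicit false

namespace Pool.Agent.N547.BG

open Finset Pool.Agent.TH858 Pool.Agent.TH858.GP Pool.Agent.N173.BG

variable {N : ℕ} [NeZero N]

theorem norm_sq_psi (c : ZMod N) : ‖ψ c - 1‖ ^ 2 = 2 * (1 - (ψ c).re) := by
  have h1 := ψ_norm c
  have h2 : Complex.normSq (ψ c) = 1 := by rw [Complex.normSq_eq_norm_sq, h1]; norm_num
  rw [← Complex.normSq_eq_norm_sq]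
  rw [Complex.normSq_apply] at h2 ⊢
  simp only [Complex.sub_re, Complex.sub_im, Complex.one_re, Complex.one_im, sub_zero]
  linarith

theorem wt_re (X : Finset (ZMod N)) (g : ZMod N) :
    wt X g = ∑ p ∈ X ×ˢ X, (ψ (g * (p.1 - p.2))).re := by
  have h := congrArg Complex.re (wt_expand X g)
  rw [Complex.ofReal_re, Complex.re_sum] at h
  exact h

theorem defect (X : Finset (ZMod N)) (g : ZMod N) :
    ∑ p ∈ X ×ˢ X, ‖ψ (g * (p.1 - p.2)) - 1‖ ^ 2 = 2 * ((X.card : ℝ) ^ 2 - wt X g) := by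
  rw [wt_re, sum_congr rfl fun p _ => norm_sq_psi (g * (p.1 - p.2)), ← mul_sum, sum_sub_distrib,
    sum_const, card_product, nsmul_eq_mul]
  push_cast
  ring

/-- **SUM.** -/
theorem t_SUM : S_SUM := by
  intro N _ X θ n f hf
  unfold Sp at hf ⊢
  rw [mem_filter]
  refine ⟨mem_univ _, ?_⟩
  have h1 : ∀ i, (1 - θ) * (X.card : ℝ) ^ 2 ≤ wt X (f i) := fun i => (mem_filter.mp (hf i)).2
  have h2 : ∑ p ∈ X ×ˢ X, ‖ψ ((∑ i, f i) * (p.1 - p.2)) - 1‖ ^ 2 ≤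
      ∑ p ∈ X ×ˢ X, (n : ℝ) * ∑ i, ‖ψ (f i * (p.1 - p.2)) - 1‖ ^ 2 := by
    refine sum_le_sum fun p _ => ?_
    have h3 : ‖ψ ((∑ i, f i) * (p.1 - p.2)) - 1‖ ≤ ∑ i, ‖ψ (f i * (p.1 - p.2)) - 1‖ := by
      rw [sum_mul]
      exact norm_ψ_sub_one_sum univ fun i => f i * (p.1 - p.2)
    have h4 : (∑ i, ‖ψ (f i * (p.1 - p.2)) - 1‖) ^ 2 ≤
        ((univ : Finset (Fin n)).card : ℝ) * ∑ i, ‖ψ (f i * (p.1 - p.2)) - 1‖ ^ 2 :=
      sq_sum_le_card_mul_sum_sq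
    rw [card_univ, Fintype.card_fin] at h4
    exact (pow_le_pow_left₀ (norm_nonneg _) h3 2).trans h4
  rw [defect, ← mul_sum, sum_comm] at h2
  have h5 : ∑ i, ∑ p ∈ X ×ˢ X, ‖ψ (f i * (p.1 - p.2)) - 1‖ ^ 2 ≤
      (n : ℝ) * (2 * (θ * (X.card : ℝ) ^ 2)) := by
    refine (sum_le_card_nsmul univ _ (2 * (θ * (X.card : ℝ) ^ 2)) fun i _ => ?_).trans
      (le_of_eq ?_)
    · rw [defect]
      have := h1 i
      linarith
    · rw [card_univ, Fintype.card_fin, nsmul_eq_mul]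
  have h6 := mul_le_mul_of_nonneg_left h5 (Nat.cast_nonneg n : (0 : ℝ) ≤ n)
  nlinarith

/-- **CARD.** -/
theorem t_CARD : S_CARD := by
  intro N _ X hX
  have h1 : ∑ g ∈ Sp X (1 / 2), (1 - 1 / 2) * (X.card : ℝ) ^ 2 ≤ ∑ g ∈ Sp X (1 / 2), wt X g :=
    sum_le_sum fun g hg => (mem_filter.mp hg).2
  have h2 : ∑ g ∈ Sp X (1 / 2), wt X g ≤ ∑ g : ZMod N, wt X g :=
    sum_le_sum_of_subset_of_nonneg (subset_univ _) fun g _ _ => wt_nonneg X g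
  rw [sum_wt] at h2
  rw [sum_const, nsmul_eq_mul] at h1
  have hx : (0 : ℝ) < X.card := by exact_mod_cast hX.card_pos
  have h3 : (((Sp X (1 / 2)).card : ℝ) * X.card) * X.card ≤ (2 * N) * X.card := by nlinarith
  exact le_of_mul_le_mul_right h3 hx

end Pool.Agent.N547.BG
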